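import Pool.Agent.U166.NF.Res
import Pool.Agent.U166.NF.Ana

/-!
# NIP fields of real or p-adic meromorphic functions consist of constants

Let `X` be a topological space, `F` the field of real numbers or a field `ℚ_p`, and `A` a ring of
continuous functions from `X` to `F` with the identity property: a function in `A` which vanishes on
a nonempty open set is zero (analytic functions on connected manifolds, Nash functions, quasianalytic
classes, ...). Let `κ` be a subfield of the field of fractions of `A`, and suppose that `κ` is NIP, or
`NIP_n` for some `n`, or NTP2, or only that `κ` is a residue field of a field elementarily equivalent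
to a field with one of these properties. Then every element `f / g` of `κ` takes fewer than `N`
values, where `N` depends only on the theory of the field; and if `A` contains the constants, then
`κ` consists of constants. So no field of real meromorphic functions on a connected open set (of a
normed space) is NIP, `NIP_n` or NTP2, except for fields of constants.

Proof. For every point `x` there is an ultrafilter finer than the neighbourhood filter of `x` which
contains the complements of the zero sets of all nonzero functions in `A`. The field of fractions of
`A` embeds in the field of germs of functions along this ultrafilter, and the elements with a bounded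
germ form a valuation ring on which the limit is a place with values in `F`; it maps `f / g` to
`f x / g x` if `g x ≠ 0`. So `N` values of `f / g` give `N` different local places, contrary to the
starting result `LocalPlaces`. Hence `f / g` takes finitely many values, and so it is equal to a
constant `c` on a nonempty open set; now `f - c g` vanishes on it.

`NIPField`, `NIPnField`, `NTP2Field` are defined in `Pool.Agent.W882.Nip3.Defs`, `IdentityProperty`
in `Pool.Agent.U166.NF.Fun`, `analyticRing` in `Pool.Agent.U166.NF.Ana`.
-/

set_option autoImplicit false

namespace Pool.Agent.Results.MP_3554b5_lc.MeromorphicFunctions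

open Pool.Agent.W882.Nip3 Pool.Agent.R614.NF Pool.Agent.U166.NF

universe u

variable {X : Type u} [TopologicalSpace X] {F : Type} [NormedField F]

/-- `κ` is (embedded as) a subfield of the field of fractions of the ring `A` of functions: `A` and
`κ` are embedded in a field `Q` such that every element of `κ` is a quotient of two elements of
`A`. -/
structure FunctionSubfield (A : Subring (X → F)) (κ : Type) [Field κ] where
  Q : Type u
  field : Field Q
  ρ : A →+* Q
  injective : Function.Injective ρ
  ι : κ →+* Q
  quotient : ∀ h : κ, ∃ f g : A, g ≠ 0 ∧ ι h * ρ g = ρ f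

/-- Every element of `κ`, written as `f / g` with `f` and `g` in `A`, takes fewer than `N` values
`f x / g x` at the points `x` with `g x ≠ 0`. -/
def FunctionSubfield.FewerValuesThan {A : Subring (X → F)} {κ : Type} [Field κ]
    (S : FunctionSubfield A κ)
    (N : ℕ) : Prop :=
  ∀ (h : κ) (f g : A), letI := S.field; S.ι h * S.ρ g = S.ρ f →
    {y : F | ∃ x, g.1 x ≠ 0 ∧ y = f.1 x / g.1 x}.encard < N

/-- Every element of `κ` is a constant function. -/
def FunctionSubfield.ConsistsOfConstants {A : Subring (X → F)} {κ : Type} [Field κ]
    (S : FunctionSubfield A κ) : Prop :=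
  ∀ h : κ, ∃ (c : F) (hc : (fun _ => c) ∈ A), letI := S.field; S.ι h = S.ρ ⟨fun _ => c, hc⟩

/-- Let `A` be a ring of continuous functions from a topological space `X` to `F` with the identity
property, and let `κ` be a subfield of the field of fractions of `A`. Then every element of `κ` takes
fewer than `N` values, and if `A` contains the constants then `κ` consists of constants. -/
def FunctionsIn (F : Type) [NormedField F] (N : ℕ) (κ : Type) [Field κ] : Prop :=
  ∀ (X : Type u) [TopologicalSpace X] (A : Subring (X → F)), IdentityProperty A →
    ∀ S : FunctionSubfield A κ, S.FewerValuesThan N ∧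
      ((∀ c : F, (fun _ => c) ∈ A) → S.ConsistsOfConstants)

/-- If `κ` is a subfield of the field of fractions of the ring of the real analytic functions on a
connected open set of a normed space, then `κ` consists of constants. -/
def AnalyticFunctions (κ : Type) [Field κ] : Prop :=
  ∀ (E : Type u) [NormedAddCommGroup E] [NormedSpace ℝ E] (W : Set E), IsOpen W →
    IsPreconnected W → ∀ S : FunctionSubfield (analyticRing W) κ, S.ConsistsOfConstants

/-- `κ` is a residue field of a valuation ring of a field which is elementarily equivalent to `K`. -/
def IsResidueField (K : Type) [Field K] [FirstOrder.Ring.CompatibleRing K] (κ : Type) [Field κ] :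
    Prop :=
  ∃ (K' : Type) (_ : Field K') (_ : FirstOrder.Ring.CompatibleRing K') (O : ValuationSubring K')
    (π : O →+* κ), FirstOrder.Language.ring.ElementarilyEquivalent K K' ∧ Function.Surjective π

/-- the embedding in the field of fractions -/
theorem exists_fraction {B : Type u} [CommRing B] {Q : Type u} [Field Q] {κ : Type} [Field κ]
    (ρ : B →+* Q) (hρ : Function.Injective ρ) (ι : κ →+* Q)
    (hq : ∀ h : κ, ∃ f g : B, g ≠ 0 ∧ ι h * ρ g = ρ f) :
    ∃ ι' : κ →+* FractionRing B, ∀ (h : κ) (f g : B), ι h * ρ g = ρ f ↔
        ι' h * algebraMap B (FractionRing B) g = algebraMap B (FractionRing B) f := by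
  have : IsDomain B := hρ.isDomain ρ
  let j : FractionRing B →+* Q := IsFractionRing.lift hρ
  have hj : ∀ a : B, j (algebraMap B (FractionRing B) a) = ρ a := fun a =>
    IsFractionRing.lift_algebraMap hρ a
  have hmem : ∀ h : κ, ∃ z : FractionRing B, j z = ι h := by
    intro h
    obtain ⟨f, g, hg, hfg⟩ := hq h
    have hg0 : ρ g ≠ 0 := fun h0 => hg (hρ (by rw [h0, map_zero]))
    refine ⟨algebraMap B (FractionRing B) f / algebraMap B (FractionRing B) g, ?_⟩
    rw [map_div₀, hj, hj, ← hfg, mul_div_assoc, div_self hg0, mul_one]
  choose z hz using hmem
  let ι' : κ →+* FractionRing B :=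
    { toFun := z
      map_one' := j.injective (by rw [hz, map_one, map_one])
      map_mul' := fun a b => j.injective (by rw [hz, map_mul, map_mul, hz, hz])
      map_zero' := j.injective (by rw [hz, map_zero, map_zero])
      map_add' := fun a b => j.injective (by rw [hz, map_add, map_add, hz, hz]) }
  refine ⟨ι', fun h f g => ?_⟩
  have h1 : j (ι' h) = ι h := hz h
  rw [← h1, ← hj, ← hj, ← map_mul]
  exact j.injective.eq_iff

theorem fewer {F : Type} [NontriviallyNormedField F] {A : Subring (X → F)} {κ : Type} [Field κ]
    (hF : Good F) {N : ℕ}
    (hN : ∀ P : Fin N → LocalPlace κ, ∃ i j, i ≠ j ∧ (P i).ball = (P j).ball)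
    (hA : IdentityProperty A) (S : FunctionSubfield A κ) : S.FewerValuesThan N := by
  letI := S.field
  obtain ⟨ι', hι⟩ := exists_fraction S.ρ S.injective S.ι S.quotient
  intro h f g hfg
  by_contra hcon
  rw [not_lt] at hcon
  obtain ⟨t, ht, htN⟩ := Set.exists_subset_encard_eq hcon
  have hfin : t.Finite := Set.finite_of_encard_eq_coe htN
  have hcard : t.ncard = N := by
    rw [Set.ncard_def, htN]; rfl
  haveI := hfin.fintype
  have hc : Fintype.card t = N := by
    rw [← Nat.card_eq_fintype_card]
    exact hcard
  let e : Fin N ≃ t := (Fintype.equivFinOfCardEq hc).symm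
  choose q hq1 hq2 using fun i : Fin N => ht (e i).2
  refine few_values hF hN hA ι' h f g ((hι h f g).1 hfg) q hq1 ?_
  intro i j hij
  have h1 : (e i : F) = (e j : F) := by
    rw [hq2 i, hq2 j]
    exact hij
  exact e.injective (Subtype.ext h1)

theorem constants {F : Type} [NontriviallyNormedField F] {A : Subring (X → F)} {κ : Type}
    [Field κ] (hF : Good F) {N : ℕ}
    (hN : ∀ P : Fin N → LocalPlace κ, ∃ i j, i ≠ j ∧ (P i).ball = (P j).ball)
    (hA : IdentityProperty A) (hc : ∀ c : F, (fun _ => c) ∈ A) (S : FunctionSubfield A κ) :
    S.ConsistsOfConstants := by
  letI := S.field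
  haveI : IsDomain A := S.injective.isDomain S.ρ
  obtain ⟨ι', hι⟩ := exists_fraction S.ρ S.injective S.ι S.quotient
  intro h
  obtain ⟨c, h2⟩ := constant hF hN hA hc ι' h
  refine ⟨c, hc c, ?_⟩
  have h3 := (hι h ⟨fun _ => c, hc c⟩ 1).2 (by rw [map_one, mul_one, h2])
  rwa [map_one, mul_one] at h3

/-- Let `K` be a field which is NIP (the hypothesis of `S14569`), or `NIP_n` for some `n`, or
`NTP2`. There is `N` such that the following holds for every residue field `κ` of a valuation ring
`O` of a field `K'` elementarily equivalent to `K` (for example `κ = O = K' = K`):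

(1) let `A` be a ring of continuous real functions on a topological space `X` with the identity
property, and let `κ` be embedded in the field of fractions of `A`; then every element of `κ` takes
fewer than `N` values, and if `A` contains the constants then `κ` consists of constants;

(2) the same holds for rings of continuous `p`-adic functions, `p` any prime;

(3) if `κ` is embedded in the field of fractions of the ring of the real analytic functions on a
connected open set of a normed space, then `κ` consists of constants. -/
theorem result (K : Type) [Field K] [FirstOrder.Ring.CompatibleRing K]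
    (hK : NIPField K ∨ (∃ n, NIPnField n K) ∨ NTP2Field K) :
    ∃ N : ℕ, ∀ (κ : Type) [Field κ], IsResidueField K κ →
      FunctionsIn.{u} ℝ N κ ∧ (∀ (p : ℕ) [Fact p.Prime], FunctionsIn.{u} ℚ_[p] N κ) ∧
        AnalyticFunctions.{u} κ := by
  obtain ⟨N, hN⟩ := few_local K hK
  refine ⟨N, ?_⟩
  rintro κ _ ⟨K', _, _, O, π, hKK', hπ⟩
  have h1 : ∀ P : Fin N → LocalPlace κ, ∃ i j, i ≠ j ∧ (P i).ball = (P j).ball :=
    fun P => few_res O π hπ (hN K' hKK') P
  exact ⟨fun X _ A hA S => ⟨fewer good_real h1 hA S, fun hc => constants good_real h1 hA hc S⟩,
    fun p _ X _ A hA S =>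
      ⟨fewer (good_padic p) h1 hA S, fun hc => constants (good_padic p) h1 hA hc S⟩,
    fun E _ _ W hW hW' S =>
      constants good_real h1 (analytic_identity hW hW') (const_mem_analyticRing W) S⟩

end Pool.Agent.Results.MP_3554b5_lc.MeromorphicFunctions
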