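import Pool.Agent.U89.NP.Asm

/-!
# Normal extensions of valued fields which are algebraic over NIP fields of positive characteristic

Let `K` be an infinite field of characteristic `p > 0` which is NIP, or `NIP_n` for some `n`, and let `M` be an
algebraic extension of `K` (for example `M = K`). Suppose that `M` is a normal algebraic extension of some subfield `F`
(which need not be contained in `K`). If `M` is not separably closed then every nontrivial valuation of `F`, of any
rank, has a `p`-divisible value group and a perfect residue field.

For `M = K` this says that Question 1 holds for all NIP fields `K` of characteristic `p` which are normal over a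
field `F` with a nontrivial valuation whose value group is not `p`-divisible or whose residue field is not perfect:
they are separably closed. For example every normal (finite or infinite) extension of the fraction field of a
Noetherian domain (which is not a field), or of a finitely generated field extension which is not algebraic, is
separably closed if it is NIP. In general it says that no infinite NIP field which is algebraic over such an `F` is
contained in a normal extension of `F` which is not separably closed (for example in the maximal solvable extension of
a global function field `F`): the conjugates of the NIP field over `F` generate a separably closed field.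

Proof. By Kaplan, Scanlon and Wagner (Hempel for `NIP_n`) all algebraic extensions of `K` are closed under
Artin-Schreier extensions. The rest is field theory. Let `L` be a finite normal extension of `F`, `a` in `L` and `h` an
automorphism over `M` of an algebraic closure. There is `y` in `M (L)` with `y ^ p - y = a`. If `v` is an automorphism
over `L` then the commutator of `v` and `h` is trivial on `M` (since `M` is normal over `F`), and on `L`, so on `y`. It
follows that `v` fixes `h y - y`. So `h a - a` is of the form `z ^ p - z` with `z` in `L`. If the valuation of `F`
is not as in the theorem then the same is true for each extension `w` to the finite extension `L`, and it follows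
from `h a - a = z ^ p - z`, applied to multiples of `a` by large `p`-th powers of elements of `F`, that `h` preserves
`w` and is in the ramification group. On the other hand the order of `h` on `L` is prime to `p`, since there are no
Artin-Schreier extensions of finite extensions of `M`. So `h` is trivial on `L`.

`NIPField` and `NIPnField` are defined in `Pool.Agent.W882.Nip3.Defs`.
-/

set_option autoImplicit false

namespace Pool.Agent.Results.MP_3554b5_lc.NormalExtensions

open Pool.Agent.W882.Nip3 Pool.Agent.U89.NP

/-- Every nontrivial valuation of `E` (of any rank) has a `p`-divisible value group and a residue field all of whose
elements are `p`-th powers. -/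
def ValuationsPerfect (p : ℕ) (E : Type) [Field E] : Prop :=
  ∀ (Γ : Type) [LinearOrderedCommGroupWithZero Γ] (v : Valuation E Γ), (∃ s, 1 < v s) →
    (∀ t : E, ∃ y : E, v t = v y ^ p) ∧ ∀ u : E, v u ≤ 1 → ∃ y : E, v (u - y ^ p) < 1

/-- Let `K` be an infinite field of characteristic `p > 0` which is NIP (the hypothesis of `S14569`), or `NIP_n` for
some `n`, and let `M` be an algebraic extension of `K`, for example `M = K`. Suppose that `M` is a normal algebraic
extension of a finite extension `F` of a field `E`. Then `M` is separably closed, or every nontrivial valuation of `E`
has a `p`-divisible value group and a perfect residue field. In particular, `M` is separably closed if `E` is the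
fraction field of a Noetherian domain which is not a field, or if `E` is a finitely generated field extension of a field
`k` which is not algebraic over `k`. -/
theorem result (p : ℕ) (hp : p.Prime) (K : Type) [Field K] [FirstOrder.Ring.CompatibleRing K] [Infinite K] [CharP K p]
    (hK : NIPField K ∨ ∃ n, NIPnField n K) (M : Type) [Field M] [Algebra K M] [Algebra.IsAlgebraic K M]
    (F : Type) [Field F] [Algebra F M] [Normal F M] (E : Type) [Field E] [Algebra E F] [FiniteDimensional E F] :
    (IsSepClosed M ∨ ValuationsPerfect p E) ∧
    (∀ (A : Type) [CommRing A] [IsDomain A] [IsNoetherianRing A] [Algebra A E] [IsFractionRing A E], ¬ IsField A →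
      IsSepClosed M) ∧
    (∀ (k : Type) [Field k] [Algebra k E], (⊤ : IntermediateField k E).FG → ¬ Algebra.IsAlgebraic k E →
      IsSepClosed M) := by
  have hM : CharP M p := charP_of_injective_algebraMap (algebraMap K M).injective p
  have hF : CharP F p := (algebraMap F M).charP (algebraMap F M).injective p
  have hE : CharP E p := (algebraMap E F).charP (algebraMap E F).injective p
  have h1 : IsSepClosed M ∨ ValuationsPerfect p E :=
    or_iff_not_imp_left.2 fun hM Γ _ v hv =>
      descend hp (core hp M F (fun L _ _ _ a => as_closed_alg hp K hK M L a) hM) Γ v hv
  refine ⟨h1, ?_, ?_⟩
  · intro A _ _ _ _ _ hA
    refine h1.resolve_right fun h3 => ?_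
    obtain ⟨v, t, hs, ht⟩ := exists_val A E E hA p hp.two_le
    obtain ⟨y, hy⟩ := (h3 _ v hs).1 t
    exact ht y hy
  · intro k _ _ hfg halg
    refine h1.resolve_right fun h3 => ?_
    obtain ⟨v, t, hs, ht⟩ := exists_val_fg k E hfg halg p hp.two_le
    obtain ⟨y, hy⟩ := (h3 _ v hs).1 t
    exact ht y hy

end Pool.Agent.Results.MP_3554b5_lc.NormalExtensions
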