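import Mathlib
import Pool.Agent.U499.SH.Hens
import Pool.Agent.U499.ETV.Gal
import Pool.Agent.Results.MP_3554b5_lc.NonTameHenselian
import Pool.Agent.Results.MP_3554b5_lc.NonTameDefinable
import Pool.Agent.Results.MP_600e55_nt.SymbolPartitions
import Pool.Agent.Results.MP_600e55_nt.SquareClassPartitions

set_option autoImplicit false

/-!
# The Shelah conjecture for NIP fields with a partition of the `ℓ`-th power classes

Let `K` be a field of characteristic `p > 0` which is NIP, or `NIP_n` for some `n`, and `ℓ` a prime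
number such that `K` contains the `ℓ`-th roots of unity and `K* / K*^ℓ` is finite.  Suppose that
`K* / K*^ℓ` has a partition into proper subgroups such that `x` and `1 + x` lie in the same part for
all `x ∉ K*^ℓ`, and that `-1` is a square if `ℓ = 2`.  Then `K` has a nontrivial henselian valuation
which is definable with parameters, so the Shelah conjecture holds for `K`.  For `ℓ = 2` there are
versions for arbitrary `-1`, with partitions modulo a larger subgroup, and for fields whose norm
groups `N(a)` have at most four classes modulo squares.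

For fields which are NIP, `NIP_n` or NTP2 and of any characteristic there is a nontrivial valuation
ring `A`, definable with parameters, with `1 + m ⊆ K*^ℓ`.

Conversely, let `K` be NIP or `NIP_n` of positive characteristic, with `-1` a square, and with a finite
number of square classes, at least four. Then `K*/K*²` has such a partition if and only if `K` has a
henselian valuation whose value group is not divisible by two, and then there is a definable one.

Proof: the partition gives a valuation ring `O` with `1 + m ⊆ K*^ℓ`, `ℓ ∈ O*` and `O* K*^ℓ ≠ K*`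
(`MP_600e55_nt.SymbolPartitions`, `SquareClassPartitions`, `FourNormClasses`).  As `K* / K*^ℓ` is not
cyclic, `O` is not tame, and the starting results `NonTameHenselian`, `NonTameDefinable` apply.
-/

namespace Pool.Agent.Results.MP_3554b5_lc.PowerClassPartitions

open Pool.Agent.W882.Nip3

/-- the group of `ℓ`-th powers of `K*` -/
def powers (K : Type) [Field K] (ℓ : ℕ) : Subgroup Kˣ := (powMonoidHom ℓ : Kˣ →* Kˣ).range

/-- the group of the nonzero values of `x² - a y²`: the norm group of `K(√a)` if `a` is not a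
square -/
def normGroup {K : Type} [Field K] (a : Kˣ) : Subgroup Kˣ :=
  Pool.Agent.Results.MP_600e55_nt.SquareClassPartitions.normGroup a

/-- `X` is a partition of `K*/P` into proper subgroups: the members of `X` are subgroups `M ≠ K*`
of `K*` containing `P`, they cover `K*`, and any two of them meet in `P` -/
structure IsPartition (K : Type) [Field K] (P : Subgroup Kˣ) (X : Set (Subgroup Kˣ)) : Prop where
  le : ∀ M ∈ X, P ≤ M
  ne_top : ∀ M ∈ X, M ≠ ⊤
  cover : ∀ x : Kˣ, ∃ M ∈ X, x ∈ M
  inf : ∀ M ∈ X, ∀ M' ∈ X, M ≠ M' → M ⊓ M' = P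

/-- if `x ∉ P` lies in a part, so does `1 + x` -/
def RespectsSums {K : Type} [Field K] (P : Subgroup Kˣ) (X : Set (Subgroup Kˣ)) : Prop :=
  ∀ x v : Kˣ, x ∉ P → (v : K) = 1 + x → ∀ M ∈ X, x ∈ M → v ∈ M

/-- a partition of `K*/K*^ℓ` which respects sums; `-1` is a square if `ℓ = 2` -/
def HasPartition (K : Type) [Field K] (ℓ : ℕ) : Prop :=
  (ℓ = 2 → (-1 : Kˣ) ∈ powers K 2) ∧
    ∃ X : Set (Subgroup Kˣ), IsPartition K (powers K ℓ) X ∧ RespectsSums (powers K ℓ) X

/-- partitions of `K*/P` which respect sums, into subgroups of index more than two, where `P`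
contains the squares and `-1`, and `1 + x` is a square if it is in `P` and `x` is not in `P`, or
`P` is the union of `K*²` and `-K*²` and the group of the sums of two squares and their negatives has
index more than two -/
def HasLargePartition (K : Type) [Field K] : Prop :=
  ∃ (P : Subgroup Kˣ) (X : Set (Subgroup Kˣ)), powers K 2 ≤ P ∧ (-1 : Kˣ) ∈ P ∧
    IsPartition K P X ∧ RespectsSums P X ∧ (∀ M ∈ X, 2 < M.index) ∧
    ((∀ x v : Kˣ, x ∉ P → (v : K) = 1 + x → v ∈ P → v ∈ powers K 2) ∨
      ((∀ x ∈ P, x ∈ powers K 2 ∨ -x ∈ powers K 2) ∧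
        2 < (normGroup (-1 : Kˣ) ⊔ Subgroup.zpowers (-1)).index))

/-- there are more than sixteen square classes, the norm groups `N(a)`, `a ≠ 1, -1` modulo squares,
have at most four classes, and `-1` is a square or `N(-1)` has index more than four -/
def HasSmallNormGroups (K : Type) [Field K] : Prop :=
  16 < (powers K 2).index ∧
    (∀ a : Kˣ, a ∉ powers K 2 → -a ∉ powers K 2 → (powers K 2).relIndex (normGroup a) ≤ 4) ∧
    ((-1 : Kˣ) ∈ powers K 2 ∨ 4 < (normGroup (-1 : Kˣ)).index)

/-- the valuation ring `A` is definable with parameters in the language of rings -/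
def IsDefinable {K : Type} [Field K] [FirstOrder.Ring.CompatibleRing K] (A : ValuationSubring K) :
    Prop :=
  ∃ (p : ℕ) (ψ : FirstOrder.Language.ring.Formula (Fin 1 ⊕ Fin p)) (c : Fin p → K),
    ∀ x : K, x ∈ A ↔ ψ.Realize (Sum.elim (fun _ => x) c)

/-- some value of `A` is not divisible by two: the value group is not 2-divisible -/
def NotTwoDivisible {K : Type} [Field K] (A : ValuationSubring K) : Prop :=
  ∃ t : K, ∀ y : K, A.valuation t ≠ A.valuation y ^ 2

open Pool.Agent.N616.NH in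
/-- the criteria give valuation rings which are not tame -/
theorem exists_notTame (K : Type) [Field K] (ℓ : ℕ) (hℓ : ℓ.Prime)
    (hζ : ∃ ζ : K, IsPrimitiveRoot ζ ℓ) (hfin : (powers K ℓ).index ≠ 0)
    (hK : HasPartition K ℓ ∨ (ℓ = 2 ∧ (HasLargePartition K ∨ HasSmallNormGroups K))) :
    ∃ O : ValuationSubring K, NotTame ℓ O ∧
      ∀ x : K, x ∈ O → x⁻¹ ∉ O → ∃ y : K, y ^ ℓ = 1 + x := by
  have : Fact ℓ.Prime := ⟨hℓ⟩
  have hℓ0 : (ℓ : K) ≠ 0 := by
    obtain ⟨ζ, hζ⟩ := hζ
    have : NeZero ℓ := ⟨hℓ.ne_zero⟩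
    exact hζ.neZero'.ne
  -- groups with a partition are not cyclic
  have hpart : ∀ (P : Subgroup Kˣ) (X : Set (Subgroup Kˣ)), powers K ℓ ≤ P → IsPartition K P X →
      ∀ a : Kˣ, ∃ b : Kˣ, b ∉ Subgroup.zpowers a ⊔ powers K ℓ := by
    intro P X hP hX a
    obtain ⟨M, hM, haM⟩ := hX.cover a
    by_contra hcon
    push Not at hcon
    apply hX.ne_top M hM
    rw [eq_top_iff]
    intro b _
    refine (sup_le ?_ (hP.trans (hX.le M hM))) (hcon b)
    rw [Subgroup.zpowers_le]
    exact haM
  have key : ∃ O : ValuationSubring K, (ℓ : K)⁻¹ ∈ O ∧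
      (∀ x : K, x ∈ O → x⁻¹ ∉ O → ∃ y : K, y ^ ℓ = 1 + x) ∧ O.unitGroup ⊔ powers K ℓ ≠ ⊤ ∧
      ∀ a : Kˣ, ∃ b : Kˣ, b ∉ Subgroup.zpowers a ⊔ powers K ℓ := by
    rcases hK with ⟨hneg, X, hX, hs⟩ | ⟨rfl, hK⟩
    · by_cases h2 : ℓ = 2
      · subst h2
        obtain ⟨⟨O, hO⟩, -⟩ := (Pool.Agent.Results.MP_600e55_nt.SquareClassPartitions.result K
          (by exact_mod_cast hℓ0) hfin).1 (powers K 2) X le_rfl (hneg rfl)
          ⟨hX.le, hX.ne_top, hX.cover, hX.inf⟩ hs (Or.inl ⟨fun _ _ _ _ h => h, Or.inl (hneg rfl)⟩)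
        exact ⟨O, by exact_mod_cast hO.inv_mem, hO.one_add, hO.ne_top,
          hpart _ X le_rfl hX⟩
      · obtain ⟨⟨-, -, O, -, hO⟩, -⟩ :=
          (Pool.Agent.Results.MP_600e55_nt.SymbolPartitions.result ℓ h2 K hζ hfin).1 X
            ⟨hX.le, hX.ne_top, hX.cover, hX.inf⟩ hs
        exact ⟨O, hO.inv_mem, hO.one_add, hO.ne_top, hpart _ X le_rfl hX⟩
    · rcases hK with ⟨P, X, hP, hneg, hX, hs, hidx, hor⟩ | ⟨h16, hsmall, hneg⟩
      · obtain ⟨⟨O, hO⟩, -⟩ := (Pool.Agent.Results.MP_600e55_nt.SquareClassPartitions.result K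
          (by exact_mod_cast hℓ0) hfin).1 P X hP hneg
          ⟨hX.le, hX.ne_top, hX.cover, hX.inf⟩ hs (by
            rcases hor with h1 | ⟨h1, h3⟩
            · exact Or.inl ⟨h1, Or.inr hidx⟩
            · exact Or.inr ⟨h1, hidx, h3⟩)
        exact ⟨O, by exact_mod_cast hO.inv_mem, hO.one_add, hO.ne_top, hpart P X hP hX⟩
      · obtain ⟨O, hO, -, c, hc⟩ := Pool.Agent.U499.ETV.val_four (F := K)
          (by exact_mod_cast hℓ0) hfin h16 hsmall hneg
        refine ⟨O, by exact_mod_cast hO.1, fun x hx hx' => ?_, fun e => ?_,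
          Pool.Agent.U499.SH.not_cyclic (lt_trans (by norm_num) h16)⟩
        · obtain ⟨y, hy⟩ := hO.2.2 x hx hx'
          exact ⟨y, by rw [hy, pow_two]⟩
        · have h1 : c ∈ O.unitGroup ⊔ powers K 2 := by
            rw [e]
            exact Subgroup.mem_top _
          obtain ⟨u, hu, s, ⟨f, hf⟩, hus⟩ := Subgroup.mem_sup.1 h1
          have hf' : f ^ 2 = s := hf
          have h3 : c * (f⁻¹) ^ 2 = u := by
            rw [← hus, ← hf', inv_pow, mul_inv_cancel_right]
          apply hc f⁻¹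
          rw [h3]
          have h4 : O.valuation (u : K) = 1 := (O.mem_unitGroup_iff u).1 hu
          constructor
          · rw [← O.valuation_le_one_iff, h4]
          · rw [← O.valuation_le_one_iff, Units.val_inv_eq_inv_val, map_inv₀, h4, inv_one]
  obtain ⟨O, h1, h2, h3, h4⟩ := key
  exact ⟨O, Pool.Agent.U499.SH.notTame_of hℓ hℓ0 O h1 h2 h3 h4, h2⟩

theorem result (K : Type) [Field K] [FirstOrder.Ring.CompatibleRing K] :
    (∀ ℓ : ℕ, ℓ.Prime → (∃ ζ : K, IsPrimitiveRoot ζ ℓ) → (powers K ℓ).index ≠ 0 →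
      (HasPartition K ℓ ∨ (ℓ = 2 ∧ (HasLargePartition K ∨ HasSmallNormGroups K))) →
      -- positive characteristic: the Shelah conjecture
      (∀ p : ℕ, p.Prime → CharP K p → (NIPField K ∨ ∃ n, NIPnField n K) →
        ∃ A : ValuationSubring K, A ≠ ⊤ ∧ IsDefinable A ∧ HenselianLocalRing A) ∧
      -- any characteristic: a definable valuation ring whose one-units are `ℓ`-th powers
      ((NIPField K ∨ (∃ n, NIPnField n K) ∨ NTP2Field K) →
        ∃ A : ValuationSubring K, A ≠ ⊤ ∧ IsDefinable A ∧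
          ∀ x : K, x ∈ A → x⁻¹ ∉ A → ∃ y : K, y ^ ℓ = 1 + x)) ∧
    -- the converse in positive characteristic for `ℓ = 2`
    (∀ p : ℕ, p.Prime → CharP K p → (NIPField K ∨ ∃ n, NIPnField n K) → (2 : K) ≠ 0 →
      (-1 : Kˣ) ∈ powers K 2 → (powers K 2).index ≠ 0 → 4 ≤ (powers K 2).index → List.TFAE
      [HasPartition K 2,
       ∃ A : ValuationSubring K, HenselianLocalRing A ∧ NotTwoDivisible A,
       ∃ A : ValuationSubring K, HenselianLocalRing A ∧ NotTwoDivisible A ∧ IsDefinable A]) := by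
  refine ⟨fun ℓ hℓ hζ hfin hK => ?_, fun p hp hcp hN h2 hneg hfin h4 => ?_⟩
  · obtain ⟨O, hNT, h2⟩ := exists_notTame K ℓ hℓ hζ hfin hK
    refine ⟨fun p hp hcp hN => ?_, fun hN => ?_⟩
    · obtain ⟨A, -, hA, -, hD, hH⟩ :=
        (Pool.Agent.Results.MP_3554b5_lc.NonTameHenselian.result K p hp hN).1 ℓ O hNT
      exact ⟨A, hA, hD, hH⟩
    · obtain ⟨A, hOA, hA, -, hD⟩ :=
        (Pool.Agent.Results.MP_3554b5_lc.NonTameDefinable.result K hN).1 ℓ O hNT
      exact ⟨A, hA, hD, Pool.Agent.U499.SH.coarse hOA h2⟩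
  · have hζ : ∃ ζ : K, IsPrimitiveRoot ζ 2 := by
      refine ⟨-1, IsPrimitiveRoot.mk_of_lt _ two_pos (by norm_num) fun l h0 hl => ?_⟩
      obtain rfl : l = 1 := by omega
      rw [pow_one]
      intro e
      apply h2
      linear_combination -e
    tfae_have 1 → 3 := by
      intro hP
      obtain ⟨O, hNT, -⟩ := exists_notTame K 2 Nat.prime_two hζ hfin (Or.inl hP)
      obtain ⟨A, -, -, hA, hD, hH⟩ :=
        (Pool.Agent.Results.MP_3554b5_lc.NonTameHenselian.result K p hp hN).1 2 O hNT
      exact ⟨A, hH, Pool.Agent.U499.SH.value_of_nt hA, hD⟩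
    tfae_have 3 → 2 := by
      rintro ⟨A, h1, h3, -⟩
      exact ⟨A, h1, h3⟩
    tfae_have 2 → 1 := by
      rintro ⟨A, hA, t, ht⟩
      have hinv := Pool.Agent.U499.SH.inv_two_mem hp h2 A
      have key := (Pool.Agent.Results.MP_600e55_nt.SquareClassPartitions.result K h2 hfin).2
        hneg h4
      have hO : ∃ O : ValuationSubring K,
          Pool.Agent.Results.MP_600e55_nt.SquareClassPartitions.IsCompatible O :=
        ⟨A, hinv, Pool.Agent.U499.SH.sq_of_henselian A hA h2 hinv,
          Pool.Agent.U499.SH.ne_top_of_value A t ht⟩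
      obtain ⟨X, hX, hs⟩ := (key.out 0 1).1 hO
      exact ⟨fun _ => hneg, X, ⟨hX.le, hX.ne_top, hX.cover, hX.inf⟩, hs⟩
    tfae_finish

end Pool.Agent.Results.MP_3554b5_lc.PowerClassPartitions
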