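import Pool.Agent.U166.NF.CN.Jac
import Pool.Agent.Results.MP_3554b5_lc.MeromorphicFunctions

/-!
# NIP fields of meromorphic functions of several complex variables

Let `W` be a connected open subset of `ℂⁿ`, or of any complex Banach space, and let `κ` be a subfield
of the field of fractions of the ring of the holomorphic functions on `W`. Suppose that `κ` is NIP,
or `NIP_n` for some `n`, or NTP2, or only that `κ` is a residue field of a field elementarily
equivalent to a field with one of these properties. Then any two elements of `κ` are functionally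
dependent: all Jacobian minors of two elements of `κ` vanish identically. In particular `κ` does not
contain two coordinate functions.

Proof. If a Jacobian minor of `h₁` and `h₂` is not zero at a point, then we use `h₁` and `h₂` as two
of the coordinates on a small ball, and may assume that `W ⊆ ℂ × Y` and that they are the coordinate
function `z` and a linear function `ℓ` on `Y`. For every point `(c, d)` there is a valuation of the
field of meromorphic functions, the order of vanishing along `z = c`, which is defined on all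
holomorphic functions as the order at `c` of the slice `z ↦ f (z, w)` for generic `w` close to `d`.
If `(m z - a)² + b²` vanishes at `z = c`, then it has order one, and it has order zero along `z = c'`
for the other centres `c'` which we use; so these valuations of `κ` are discrete and pairwise
incomparable. If `q = (m' ℓ - a')² + b'²` vanishes at `d`, then its residue is not a square: the
equation `q g² = f²` for the leading coefficients contradicts the parity of the orders at `d` on a
line in `Y`. So the residue field has a quadratic extension, and the value group is `ℤ`, and the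
starting result `UnramifiedNorms` shows that there are only finitely many such valuations.

`NIPField`, `NIPnField`, `NTP2Field` are defined in `Pool.Agent.W882.Nip3.Defs`, `FunctionSubfield`
and `IsResidueField` in `MeromorphicFunctions`, `holomorphicRing` in `Pool.Agent.U166.NF.CN.Val`,
`restr` in `Pool.Agent.U166.NF.CN.Jac`.
-/

set_option autoImplicit false

namespace Pool.Agent.Results.MP_3554b5_lc.TwoComplexVariables

open Pool.Agent.W882.Nip3 Pool.Agent.U166.NF.CN
open Pool.Agent.Results.MP_3554b5_lc.MeromorphicFunctions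

universe u

variable {X : Type u} [NormedAddCommGroup X] [NormedSpace ℂ X]

/-- The element `h` of `κ` is the quotient `f / g` of two functions which are analytic on `W`. -/
def IsQuotient {W : Set X} {κ : Type} [Field κ] (S : FunctionSubfield (holomorphicRing W) κ) (h : κ)
    (f g : X → ℂ) : Prop :=
  letI := S.field
  ∃ (af : AnalyticOnNhd ℂ f W) (ag : AnalyticOnNhd ℂ g W),
    S.ι h * S.ρ (restr g ag) = S.ρ (restr f af)

/-- The differentials of `F₁` and `F₂` at `p` are linearly dependent: all Jacobian minors
`D F₁ (u) D F₂ (v) - D F₁ (v) D F₂ (u)` at `p` are zero. -/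
def DependentAt (F₁ F₂ : X → ℂ) (p : X) : Prop :=
  ∀ u v : X, fderiv ℂ F₁ p u * fderiv ℂ F₂ p v = fderiv ℂ F₁ p v * fderiv ℂ F₂ p u

/-- The meromorphic functions `h₁` and `h₂` on `W` are functionally dependent: if `h₁ = f₁ / g₁` and
`h₂ = f₂ / g₂` with functions analytic on `W`, then all Jacobian minors of `(f₁ / g₁, f₂ / g₂)` are
zero at all points of `W` at which `g₁` and `g₂` do not vanish. -/
def Dependent {W : Set X} {κ : Type} [Field κ] (S : FunctionSubfield (holomorphicRing W) κ)
    (h₁ h₂ : κ) : Prop :=
  ∀ f₁ g₁ f₂ g₂ : X → ℂ, IsQuotient S h₁ f₁ g₁ → IsQuotient S h₂ f₂ g₂ →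
    ∀ p ∈ W, g₁ p ≠ 0 → g₂ p ≠ 0 → DependentAt (fun x => f₁ x / g₁ x) (fun x => f₂ x / g₂ x) p

theorem surjective_of_not_dependent {F₁ F₂ : X → ℂ} {p : X} (h1 : AnalyticAt ℂ F₁ p)
    (h2 : AnalyticAt ℂ F₂ p) (h : ¬ DependentAt F₁ F₂ p) :
    Function.Surjective (fderiv ℂ (fun x => (F₁ x, F₂ x)) p) := by
  unfold DependentAt at h
  push Not at h
  obtain ⟨u, v, huv⟩ := h
  have hne : fderiv ℂ F₁ p u * fderiv ℂ F₂ p v - fderiv ℂ F₁ p v * fderiv ℂ F₂ p u ≠ 0 :=
    sub_ne_zero.2 huv
  rintro ⟨s, t⟩
  refine ⟨((s * fderiv ℂ F₂ p v - t * fderiv ℂ F₁ p v) /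
    (fderiv ℂ F₁ p u * fderiv ℂ F₂ p v - fderiv ℂ F₁ p v * fderiv ℂ F₂ p u)) • u +
    ((t * fderiv ℂ F₁ p u - s * fderiv ℂ F₂ p u) /
    (fderiv ℂ F₁ p u * fderiv ℂ F₂ p v - fderiv ℂ F₁ p v * fderiv ℂ F₂ p u)) • v, ?_⟩
  rw [DifferentiableAt.fderiv_prodMk h1.differentiableAt h2.differentiableAt]
  refine Prod.ext ?_ ?_
  · change fderiv ℂ F₁ p _ = s
    rw [map_add, map_smul, map_smul, smul_eq_mul, smul_eq_mul, div_mul_eq_mul_div,
      div_mul_eq_mul_div, ← add_div, div_eq_iff hne]
    ring
  · change fderiv ℂ F₂ p _ = t
    rw [map_add, map_smul, map_smul, smul_eq_mul, smul_eq_mul, div_mul_eq_mul_div,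
      div_mul_eq_mul_div, ← add_div, div_eq_iff hne]
    ring

/-- Let `K` be a field which is NIP (the hypothesis of `S14569`), or `NIP_n` for some `n`, or
`NTP2`, and let `κ` be a residue field of a valuation ring of a field elementarily equivalent to `K`
(for example `κ = K`). Let `κ` be embedded in the field of fractions of the ring of the holomorphic
functions on a connected open subset `W` of a complex Banach space. Then any two elements of `κ` are
functionally dependent. -/
theorem result [CompleteSpace X] (K : Type) [Field K] [FirstOrder.Ring.CompatibleRing K]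
    (hK : NIPField K ∨ (∃ n, NIPnField n K) ∨ NTP2Field K) (κ : Type) [Field κ]
    (hκ : IsResidueField K κ) (W : Set X) (hW : IsOpen W) (hW' : IsPreconnected W)
    (S : FunctionSubfield (holomorphicRing W) κ) (h₁ h₂ : κ) : Dependent S h₁ h₂ := by
  letI := S.field
  rintro f₁ g₁ f₂ g₂ ⟨af₁, ag₁, e₁⟩ ⟨af₂, ag₂, e₂⟩ p hp n₁ n₂
  by_contra hcon
  have hb := surjective_of_not_dependent ((af₁ p hp).div (ag₁ p hp) n₁)
    ((af₂ p hp).div (ag₂ p hp) n₂) hcon
  obtain ⟨K', _, _, O, π, hKK', hπ⟩ := hκ
  obtain ⟨N, hN⟩ := (UnramifiedNorms.result K hK).1 2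
  obtain ⟨P, h1, h2⟩ := many_places' O π hπ S.ρ S.injective S.ι S.quotient hW hW' h₁ h₂ f₁ g₁ f₂ g₂
    af₁ ag₁ af₂ ag₂ e₁ e₂ p hp n₁ n₂ hb N
  obtain ⟨i, hi⟩ := (hN K' hKK').1 P h1
  exact h2 i hi

end Pool.Agent.Results.MP_3554b5_lc.TwoComplexVariables
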